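import Mathlib

/-!
# Groups with classes of distinct sizes: the index of the solvable radical is bounded (MP_3a125c_al), definitions
-/

set_option autoImplicit false

namespace Pool.Agent.Bdt

/-- Minimal normal subgroups. -/
structure MinN {Q : Type*} [Group Q] (N : Subgroup Q) : Prop where
  nor : N.Normal
  ne : N ≠ ⊥
  min : ∀ M : Subgroup Q, M.Normal → M ≤ N → M ≠ ⊥ → M = N

/-- The conjugate `q S q⁻¹`. -/
def cj {Q : Type*} [Group Q] (q : Q) (S : Subgroup Q) : Subgroup Q := S.map (MulAut.conj q).toMonoidHom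

/-- `S` is a minimal normal subgroup of `N`. -/
structure Fac {Q : Type*} [Group Q] (N S : Subgroup Q) : Prop where
  le : S ≤ N
  ne : S ≠ ⊥
  nor : ∀ n ∈ N, ∀ s ∈ S, n * s * n⁻¹ ∈ S
  min : ∀ M : Subgroup Q, M ≤ S → M ≠ ⊥ → (∀ n ∈ N, ∀ m ∈ M, n * m * n⁻¹ ∈ M) → M = S

/-- The derived series of a subgroup. -/
def der {G : Type*} [Group G] (R : Subgroup G) : ℕ → Subgroup G
  | 0 => R
  | n + 1 => ⁅der R n, der R n⁆

section

variable {Q : Type*} [Group Q]

theorem mem_cj {q x : Q} {S : Subgroup Q} : x ∈ cj q S ↔ q⁻¹ * x * q ∈ S := by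
  rw [cj, Subgroup.mem_map]
  constructor
  · rintro ⟨y, hy, rfl⟩
    have : q⁻¹ * (MulAut.conj q).toMonoidHom y * q = y := by
      show q⁻¹ * (q * y * q⁻¹) * q = y
      group
    rw [this]
    exact hy
  · intro h
    refine ⟨q⁻¹ * x * q, h, ?_⟩
    show q * (q⁻¹ * x * q) * q⁻¹ = x
    group

theorem cj_one (S : Subgroup Q) : cj 1 S = S := by
  ext x
  rw [mem_cj]
  simp

theorem cj_mul (a b : Q) (S : Subgroup Q) : cj (a * b) S = cj a (cj b S) := by
  ext x
  rw [mem_cj, mem_cj, mem_cj]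
  have : (a * b)⁻¹ * x * (a * b) = b⁻¹ * (a⁻¹ * x * a) * b := by group
  rw [this]

theorem cj_mem {q x : Q} {S : Subgroup Q} (h : x ∈ S) : q * x * q⁻¹ ∈ cj q S := by
  rw [mem_cj]
  have : q⁻¹ * (q * x * q⁻¹) * q = x := by group
  rw [this]
  exact h

end

end Pool.Agent.Bdt
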