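import Pool.Agent.Bdt.Defs

/-!
# Minimal normal subgroups
-/

set_option autoImplicit false

namespace Pool.Agent.Bdt

-- BEGIN cq
/-- PROOF. Let `K` be the preimage of the centralizer of `gN` (`Nat.card K = Nat.card (centralizer {gN}) * Nat.card N`). `K` acts by conjugation on `G`, the orbit of `g` lies in the coset `g N`, so it has at most `|N|` elements,
and the stabilizer of `g` in `K` lies in the centralizer of `g`: `|K| ≤ |N| |C(g)|`. (Or: the map `K → G`, `k ↦ g⁻¹ * k * g * k⁻¹` has values in `N`, and each fibre is a coset of a subgroup of `C(g)`.) -/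
theorem cent_quot {G : Type*} [Group G] [Finite G] (N : Subgroup G) [N.Normal] (g : G) :
    Nat.card (Subgroup.centralizer {(g : G ⧸ N)}) ≤ Nat.card (Subgroup.centralizer {g}) := by
  classical
  set C : Subgroup (G ⧸ N) := Subgroup.centralizer {(g : G ⧸ N)} with hC
  set K : Subgroup G := C.comap (QuotientGroup.mk' N) with hK
  have hsurj : Function.Surjective (QuotientGroup.mk' N) := QuotientGroup.mk'_surjective N
  have h1 : Nat.card K * K.index = Nat.card G := K.card_mul_index
  have h2 : K.index = C.index := Subgroup.index_comap_of_surjective C hsurj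
  have h3 : Nat.card C * C.index = Nat.card (G ⧸ N) := C.card_mul_index
  have h4 : Nat.card G = Nat.card (G ⧸ N) * Nat.card N := Subgroup.card_eq_card_quotient_mul_card_subgroup N
  have hidx : 0 < C.index := Nat.pos_of_ne_zero Subgroup.index_ne_zero_of_finite
  have hKC : Nat.card K = Nat.card C * Nat.card N := by
    apply Nat.eq_of_mul_eq_mul_right hidx
    rw [← h2, h1, h4, ← h3, h2]
    ring
  have hmem : ∀ k : K, g⁻¹ * (k : G) * g * (k : G)⁻¹ ∈ N := by
    intro k
    rw [← QuotientGroup.eq_one_iff]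
    have hk : QuotientGroup.mk' N (k : G) ∈ C := k.2
    rw [hC, Subgroup.mem_centralizer_iff] at hk
    have h : QuotientGroup.mk' N g * QuotientGroup.mk' N (k : G) =
        QuotientGroup.mk' N (k : G) * QuotientGroup.mk' N g := hk (g : G ⧸ N) rfl
    show QuotientGroup.mk' N (g⁻¹ * (k : G) * g * (k : G)⁻¹) = 1
    rw [map_mul, map_mul, map_mul, map_inv, map_inv, mul_assoc (QuotientGroup.mk' N g)⁻¹, ← h]
    group
  let s : G → G := fun x => if h : ∃ k : G, k * g * k⁻¹ = x then h.choose else 1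
  have hs : ∀ k : G, s (k * g * k⁻¹) * g * (s (k * g * k⁻¹))⁻¹ = k * g * k⁻¹ := by
    intro k
    have h : ∃ k' : G, k' * g * k'⁻¹ = k * g * k⁻¹ := ⟨k, rfl⟩
    simp only [s, dif_pos h]
    exact h.choose_spec
  let f : K → N × Subgroup.centralizer ({g} : Set G) := fun k =>
    (⟨g⁻¹ * (k : G) * g * (k : G)⁻¹, hmem k⟩,
      ⟨(s ((k : G) * g * (k : G)⁻¹))⁻¹ * k, by
        rw [Subgroup.mem_centralizer_iff]
        intro x hx
        rw [Set.mem_singleton_iff] at hx
        subst hx
        have h := hs (k : G)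
        have e1 : x = (s ((k : G) * x * (k : G)⁻¹))⁻¹ * ((k : G) * x * (k : G)⁻¹) *
            s ((k : G) * x * (k : G)⁻¹) := by
          conv_rhs => rw [← h]
          rw [h]
          have := h
          set a := s ((k : G) * x * (k : G)⁻¹) with ha
          rw [← h]
          group
        calc x * ((s ((k : G) * x * (k : G)⁻¹))⁻¹ * k)
            = ((s ((k : G) * x * (k : G)⁻¹))⁻¹ * ((k : G) * x * (k : G)⁻¹) *
              s ((k : G) * x * (k : G)⁻¹)) * ((s ((k : G) * x * (k : G)⁻¹))⁻¹ * k) := by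
              rw [← e1]
          _ = (s ((k : G) * x * (k : G)⁻¹))⁻¹ * k * x := by group⟩)
  have hf : Function.Injective f := by
    intro a b hab
    simp only [f, Prod.mk.injEq, Subtype.mk.injEq] at hab
    obtain ⟨h1, h2⟩ := hab
    have h3 : (a : G) * g * (a : G)⁻¹ = (b : G) * g * (b : G)⁻¹ := by
      have := congrArg (fun z => g * z) h1
      simpa [mul_assoc] using this
    rw [h3] at h2
    exact Subtype.ext (mul_left_cancel h2)
  have hle : Nat.card K ≤ Nat.card N * Nat.card (Subgroup.centralizer ({g} : Set G)) := by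
    rw [← Nat.card_prod]
    exact Nat.card_le_card_of_injective f hf
  rw [hKC, mul_comm (Nat.card C)] at hle
  exact Nat.le_of_mul_le_mul_left hle Nat.card_pos
-- END cq

-- BEGIN rad
/-- PROOF. Take `R` solvable and normal of maximal order. If `A` is abelian and normal in `G ⧸ R`, its preimage `R'` is normal and solvable (`solvable_of_ker_le_range` or `isSolvable_of_..`: `R` and `R' / R` are solvable) and contains `R`, so `R' = R`. -/
theorem exists_rad (G : Type*) [Group G] [Finite G] :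
    ∃ (R : Subgroup G) (_ : R.Normal), Group.IsSolvable R ∧
      ∀ A : Subgroup (G ⧸ R), A.Normal → (∀ x ∈ A, ∀ y ∈ A, x * y = y * x) → A = ⊥ := by
  classical
  have hfin : (Set.univ : Set (Subgroup G)).Finite := Set.toFinite _
  obtain ⟨R, ⟨hRn, hRs⟩, hmax⟩ := Set.exists_max_image
    {R : Subgroup G | R.Normal ∧ Group.IsSolvable R} (fun R => Nat.card R) (Set.toFinite _)
    ⟨⊥, inferInstance, inferInstance⟩
  refine ⟨R, hRn, hRs, fun A hA hab => ?_⟩
  set R' : Subgroup G := A.comap (QuotientGroup.mk' R) with hR'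
  have hle : R ≤ R' := by
    intro x hx
    rw [hR', Subgroup.mem_comap]
    have : QuotientGroup.mk' R x = 1 := (QuotientGroup.eq_one_iff x).2 hx
    rw [this]
    exact A.one_mem
  have hn : R'.Normal := hA.comap _
  have hsol : Group.IsSolvable R' := by
    let φ : R' →* A :=
      { toFun := fun x => ⟨QuotientGroup.mk' R (x : G), x.2⟩
        map_one' := by ext; simp
        map_mul' := by intro a b; ext; simp }
    let i : R →* R' := Subgroup.inclusion hle
    have hA' : Group.IsSolvable A := by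
      let _ : CommGroup A := { (inferInstance : Group A) with
        mul_comm := fun a b => Subtype.ext (hab a a.2 b b.2) }
      exact inferInstance
    have hker : φ.ker ≤ i.range := by
      intro x hx
      rw [MonoidHom.mem_ker] at hx
      have h1 : QuotientGroup.mk' R (x : G) = 1 := congrArg Subtype.val hx
      have h2 : (x : G) ∈ R := (QuotientGroup.eq_one_iff (x : G)).1 h1
      exact ⟨⟨x, h2⟩, Subtype.ext rfl⟩
    exact Group.isSolvable_of_ker_le_range i φ hker
  have hcard : Nat.card R' ≤ Nat.card R := hmax R' ⟨hn, hsol⟩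
  have heq : R = R' := by
    apply Subgroup.eq_of_le_of_card_ge hle hcard
  rw [eq_bot_iff]
  intro x hx
  obtain ⟨y, rfl⟩ := QuotientGroup.mk'_surjective R x
  have hy : y ∈ R' := hx
  rw [← heq] at hy
  exact (QuotientGroup.eq_one_iff y).2 hy
-- END rad

-- BEGIN ms
/-- Minimal normal subgroups and minimal normal subgroups of them exist. PROOF. Choose one of minimal order. -/
theorem exists_minN {Q : Type*} [Group Q] [Finite Q] (K : Subgroup Q) (hK : K.Normal) (h : K ≠ ⊥) :
    ∃ N : Subgroup Q, MinN N ∧ N ≤ K := by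
  obtain ⟨N, hN⟩ := (Set.toFinite {M : Subgroup Q | M.Normal ∧ M ≠ ⊥ ∧ M ≤ K}).exists_minimal
    ⟨K, hK, h, le_rfl⟩
  refine ⟨N, ⟨hN.prop.1, hN.prop.2.1, fun M hM hle hne => ?_⟩, hN.prop.2.2⟩
  exact le_antisymm hle (hN.le_of_le ⟨hM, hne, hle.trans hN.prop.2.2⟩ hle)

theorem exists_fac {Q : Type*} [Group Q] [Finite Q] {N : Subgroup Q} (hN : MinN N) : ∃ S : Subgroup Q, Fac N S := by
  obtain ⟨S, hS⟩ := (Set.toFinite {M : Subgroup Q | M ≤ N ∧ M ≠ ⊥ ∧
    ∀ n ∈ N, ∀ m ∈ M, n * m * n⁻¹ ∈ M}).exists_minimal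
    ⟨N, le_rfl, hN.ne, fun n _ m hm => hN.nor.conj_mem m hm n⟩
  refine ⟨S, ⟨hS.prop.1, hS.prop.2.1, hS.prop.2.2, fun M hle hne hM => ?_⟩⟩
  exact le_antisymm hle (hS.le_of_le ⟨hle.trans hS.prop.1, hne, hM⟩ hle)
-- END ms

-- BEGIN cjf
/-- PROOF. Conjugation by `q` maps `N` to `N`; a subgroup `M ≤ q S q⁻¹` invariant under `N` gives `q⁻¹ M q ≤ S`. -/
theorem Fac.conj {Q : Type*} [Group Q] {N S : Subgroup Q} (hN : N.Normal) (hS : Fac N S) (q : Q) : Fac N (cj q S) := by
  have hne : ∀ (a : Q) (T : Subgroup Q), T ≠ ⊥ → cj a T ≠ ⊥ := by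
    intro a T hT h
    apply hT
    rw [eq_bot_iff]
    intro t ht
    have h1 : a * t * a⁻¹ ∈ cj a T := cj_mem ht
    rw [h, Subgroup.mem_bot] at h1
    rw [Subgroup.mem_bot]
    have h2 : t = a⁻¹ * (a * t * a⁻¹) * a := by group
    rw [h2, h1]
    group
  refine ⟨?_, hne q S hS.ne, ?_, ?_⟩
  · intro x hx
    rw [mem_cj] at hx
    have h1 := hN.conj_mem _ (hS.le hx) q
    have h2 : q * (q⁻¹ * x * q) * q⁻¹ = x := by group
    rw [h2] at h1
    exact h1
  · intro n hn s hs
    rw [mem_cj] at hs ⊢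
    have h1 := hN.conj_mem n hn q⁻¹
    rw [inv_inv] at h1
    have h2 := hS.nor _ h1 _ hs
    have h3 : q⁻¹ * n * q * (q⁻¹ * s * q) * (q⁻¹ * n * q)⁻¹ = q⁻¹ * (n * s * n⁻¹) * q := by group
    rw [h3] at h2
    exact h2
  · intro M hM hM0 hMn
    have h1 : cj q⁻¹ M = S := by
      refine hS.min _ ?_ (hne q⁻¹ M hM0) ?_
      · intro x hx
        rw [mem_cj, inv_inv] at hx
        have h2 := hM hx
        rw [mem_cj] at h2
        have h3 : q⁻¹ * (q * x * q⁻¹) * q = x := by group
        rw [h3] at h2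
        exact h2
      · intro n hn m hm
        rw [mem_cj, inv_inv] at hm ⊢
        have h2 := hMn _ (hN.conj_mem n hn q) _ hm
        have h3 : q * n * q⁻¹ * (q * m * q⁻¹) * (q * n * q⁻¹)⁻¹ = q * (n * m * n⁻¹) * q⁻¹ := by group
        rw [h3] at h2
        exact h2
    rw [← h1, ← cj_mul, mul_inv_cancel, cj_one]
-- END cjf

-- BEGIN com
/-- PROOF. `S ⊓ T` is invariant under `N`, so it is `⊥` or `S = S ⊓ T = T` (`Fac.min` twice). The commutators of `S` and `T` are in `S ⊓ T` (`S, T ≤ N`). -/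
theorem Fac.comm {Q : Type*} [Group Q] {N S T : Subgroup Q} (hS : Fac N S) (hT : Fac N T) (h : S ≠ T) :
    ∀ s ∈ S, ∀ t ∈ T, s * t = t * s := by
  have hb : S ⊓ T = ⊥ := by
    by_contra hne
    have hinv : ∀ n ∈ N, ∀ m ∈ S ⊓ T, n * m * n⁻¹ ∈ S ⊓ T := fun n hn m hm =>
      ⟨hS.nor n hn m hm.1, hT.nor n hn m hm.2⟩
    exact h ((hS.min _ inf_le_left hne hinv).symm.trans (hT.min _ inf_le_right hne hinv))
  intro s hs t ht
  have h1 : s * t * s⁻¹ * t⁻¹ ∈ S ⊓ T := by
    refine ⟨?_, ?_⟩
    · have h2 : t * s⁻¹ * t⁻¹ ∈ S := hS.nor t (hT.le ht) s⁻¹ (S.inv_mem hs)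
      have h3 := S.mul_mem hs h2
      have h4 : s * (t * s⁻¹ * t⁻¹) = s * t * s⁻¹ * t⁻¹ := by group
      rwa [h4] at h3
    · exact T.mul_mem (hT.nor s (hS.le hs) t ht) (T.inv_mem ht)
  rw [hb, Subgroup.mem_bot] at h1
  have h5 : s * t * s⁻¹ = t := by
    rw [mul_inv_eq_one] at h1
    exact h1
  exact mul_inv_eq_iff_eq_mul.1 h5
-- END com

-- BEGIN gen
/-- PROOF. The join is normal in `Q` (conjugation permutes the `cj q S`, `cj_mul`), contained in `N` and not `⊥`. -/
theorem Fac.gen {Q : Type*} [Group Q] {N S : Subgroup Q} (hN : MinN N) (hS : Fac N S) : N = ⨆ q : Q, cj q S := by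
  have h1 : S ≤ ⨆ q : Q, cj q S := by
    refine le_trans ?_ (le_iSup (fun q : Q => cj q S) 1)
    show S ≤ cj 1 S
    rw [cj_one]
  have hc : ∀ g : Q, cj g (⨆ q : Q, cj q S) ≤ ⨆ q : Q, cj q S := by
    intro g
    have h2 : cj g (⨆ q : Q, cj q S) = ⨆ q : Q, cj g (cj q S) := by
      unfold cj
      rw [Subgroup.map_iSup]
    rw [h2]
    refine iSup_le fun q => ?_
    rw [← cj_mul]
    exact le_iSup (fun q : Q => cj q S) (g * q)
  have hnor : (⨆ q : Q, cj q S).Normal := ⟨fun n hn g => hc g (cj_mem hn)⟩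
  symm
  apply hN.min _ hnor
  · refine iSup_le fun q => ?_
    intro x hx
    rw [mem_cj] at hx
    have h2 := hN.nor.conj_mem _ (hS.le hx) q
    have h3 : q * (q⁻¹ * x * q) * q⁻¹ = x := by group
    rwa [h3] at h2
  · intro h2
    apply hS.ne
    rw [h2] at h1
    exact le_bot_iff.1 h1
-- END gen

-- BEGIN cen
/-- The center of a nonabelian minimal normal subgroup is trivial. PROOF. The subgroup of the elements of `N` which commute with all elements of `N` is normal in `Q`, so it is `⊥` or `N`. -/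
theorem MinN.cen {Q : Type*} [Group Q] {N : Subgroup Q} (hN : MinN N) (hab : ∃ a ∈ N, ∃ b ∈ N, a * b ≠ b * a)
    {x : Q} (hx : x ∈ N) (h : ∀ y ∈ N, x * y = y * x) : x = 1 := by
  have hNn := hN.nor
  by_contra hx1
  have hmem : ∀ z : Q, z ∈ Subgroup.centralizer (N : Set Q) ⊓ N ↔ (∀ y ∈ N, y * z = z * y) ∧ z ∈ N := by
    intro z
    rw [Subgroup.mem_inf, Subgroup.mem_centralizer_iff]
    rfl
  have hnor : (Subgroup.centralizer (N : Set Q) ⊓ N : Subgroup Q).Normal := by
    refine ⟨fun n hn g => ?_⟩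
    rw [hmem] at hn ⊢
    refine ⟨fun y hy => ?_, hNn.conj_mem n hn.2 g⟩
    have h1 := hn.1 (g⁻¹ * y * g) (by
      have := hNn.conj_mem y hy g⁻¹
      rwa [inv_inv] at this)
    calc y * (g * n * g⁻¹) = g * ((g⁻¹ * y * g) * n) * g⁻¹ := by group
      _ = g * (n * (g⁻¹ * y * g)) * g⁻¹ := by rw [h1]
      _ = g * n * g⁻¹ * y := by group
  have hne : (Subgroup.centralizer (N : Set Q) ⊓ N : Subgroup Q) ≠ ⊥ := by
    intro h1
    apply hx1
    have h2 : x ∈ (Subgroup.centralizer (N : Set Q) ⊓ N : Subgroup Q) := (hmem x).2 ⟨fun y hy => (h y hy).symm, hx⟩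
    rw [h1] at h2
    exact Subgroup.mem_bot.1 h2
  have heq := hN.min _ hnor inf_le_right hne
  obtain ⟨a, ha, b, hb, hab⟩ := hab
  rw [← heq] at ha
  exact hab (((hmem a).1 ha).1 b hb).symm
-- END cen

-- BEGIN sim
/-- PROOF. `N` is the join of the conjugates `cj q S` (`Fac.gen`), which are `Fac`s (`Fac.conj`) and commute with `S` if they are `≠ S` (`Fac.comm`). So a normal subgroup `M ≠ ⊥` of `S` is normalized by all of them, hence by `N`
(`Subgroup.closure_induction` or: the normalizer of `M` contains each `cj q S`), and `M = S` by `Fac.min`. If `S` were abelian, all the conjugates would be abelian and commute with each other, and `N` would be abelian. -/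
theorem Fac.simple {Q : Type*} [Group Q] {N S : Subgroup Q} (hN : MinN N) (hab : ∃ a ∈ N, ∃ b ∈ N, a * b ≠ b * a)
    (hS : Fac N S) : IsSimpleGroup S ∧ ∃ a ∈ S, ∃ b ∈ S, a * b ≠ b * a := by
  have hgen := Fac.gen hN hS
  constructor
  · have hnt : Nontrivial S := (Subgroup.nontrivial_iff_ne_bot S).2 hS.ne
    refine ⟨fun M hM => ?_⟩
    rcases eq_or_ne M ⊥ with h0 | h0
    · exact Or.inl h0
    · refine Or.inr ?_
      have hle : M.map S.subtype ≤ S := by
        rintro x ⟨y, _, rfl⟩
        exact y.2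
      have hMne : M.map S.subtype ≠ ⊥ := by
        intro h1
        apply h0
        rwa [Subgroup.map_eq_bot_iff_of_injective M S.subtype_injective] at h1
      -- conjugation with the elements of `S`
      have hSM : ∀ x ∈ S, ∀ m ∈ M.map S.subtype, x * m * x⁻¹ ∈ M.map S.subtype := by
        rintro x hx _ ⟨m, hm, rfl⟩
        exact ⟨⟨x, hx⟩ * m * ⟨x, hx⟩⁻¹, hM.conj_mem m hm ⟨x, hx⟩, rfl⟩
      have hnorm : N ≤ Subgroup.normalizer (M.map S.subtype : Set Q) := by
        rw [hgen]
        refine iSup_le fun q => ?_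
        have key : ∀ x ∈ cj q S, ∀ m ∈ M.map S.subtype, x * m * x⁻¹ ∈ M.map S.subtype := by
          intro x hx m hm
          by_cases hq : cj q S = S
          · rw [hq] at hx
            exact hSM x hx m hm
          · have h1 := Fac.comm (Fac.conj hN.nor hS q) hS hq x hx m (hle hm)
            rw [h1, mul_inv_cancel_right]
            exact hm
        intro x hx
        rw [Subgroup.mem_normalizer_iff]
        intro m
        constructor
        · exact fun hm => key x hx m hm
        · intro hm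
          have h1 := key x⁻¹ (inv_mem hx) _ hm
          have h2 : x⁻¹ * (x * m * x⁻¹) * x⁻¹⁻¹ = m := by group
          rwa [h2] at h1
      have heq := hS.min (M.map S.subtype) hle hMne (fun n hn m hm =>
        (Subgroup.mem_normalizer_iff.1 (hnorm hn) m).1 hm)
      rw [eq_top_iff]
      intro y _
      have hy : (y : Q) ∈ M.map S.subtype := by
        rw [heq]
        exact y.2
      obtain ⟨z, hz, hzy⟩ := hy
      have h2 : z = y := Subtype.ext hzy
      rw [← h2]
      exact hz
  · by_contra hcon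
    push Not at hcon
    have hcc : ∀ q q' : Q, ∀ x ∈ cj q S, ∀ y ∈ cj q' S, x * y = y * x := by
      intro q q' x hx y hy
      by_cases hq : cj q S = cj q' S
      · rw [← hq] at hy
        rw [mem_cj] at hx hy
        have h1 := hcon _ hx _ hy
        have h2 : q⁻¹ * (x * y) * q = q⁻¹ * (y * x) * q := by
          calc q⁻¹ * (x * y) * q = (q⁻¹ * x * q) * (q⁻¹ * y * q) := by group
            _ = (q⁻¹ * y * q) * (q⁻¹ * x * q) := h1
            _ = q⁻¹ * (y * x) * q := by group
        exact mul_left_cancel (mul_right_cancel h2)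
      · exact Fac.comm (Fac.conj hN.nor hS q) (Fac.conj hN.nor hS q') hq x hx y hy
    have h1 : ∀ q' : Q, N ≤ Subgroup.centralizer (cj q' S : Set Q) := by
      intro q'
      rw [hgen]
      refine iSup_le fun q => ?_
      intro x hx
      rw [Subgroup.mem_centralizer_iff]
      intro y hy
      exact (hcc q q' x hx y hy).symm
    have h2 : N ≤ Subgroup.centralizer (N : Set Q) := by
      conv_lhs => rw [hgen]
      refine iSup_le fun q' => ?_
      exact Subgroup.le_centralizer_iff.1 (h1 q')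
    obtain ⟨a, ha, b, hb, hne⟩ := hab
    exact hne ((Subgroup.mem_centralizer_iff.1 (h2 hb)) a ha)
-- END sim

-- BEGIN crd
private theorem crd_sup {Q : Type*} [Group Q] [Finite Q] (T J : Subgroup Q)
    (h : ∀ j ∈ J, ∀ t ∈ T, j * t * j⁻¹ ∈ T) :
    Nat.card (T ⊔ J : Subgroup Q) ≤ Nat.card T * Nat.card J := by
  let H : Subgroup Q :=
    { carrier := {x | ∃ t ∈ T, ∃ j ∈ J, x = t * j}
      mul_mem' := by
        rintro _ _ ⟨t, ht, j, hj, rfl⟩ ⟨t', ht', j', hj', rfl⟩
        exact ⟨t * (j * t' * j⁻¹), T.mul_mem ht (h j hj t' ht'), j * j', J.mul_mem hj hj', by group⟩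
      one_mem' := ⟨1, T.one_mem, 1, J.one_mem, by group⟩
      inv_mem' := by
        rintro _ ⟨t, ht, j, hj, rfl⟩
        refine ⟨j⁻¹ * t⁻¹ * (j⁻¹)⁻¹, h _ (J.inv_mem hj) _ (T.inv_mem ht), j⁻¹, J.inv_mem hj, by group⟩ }
  have hle : T ⊔ J ≤ H := sup_le (fun t ht => ⟨t, ht, 1, J.one_mem, by group⟩)
    (fun j hj => ⟨1, T.one_mem, j, hj, by group⟩)
  rw [← Nat.card_prod]
  refine (Subgroup.card_le_of_le hle).trans ?_
  refine Nat.card_le_card_of_surjective
    (fun q : T × J => (⟨q.1 * q.2, q.1, q.1.2, q.2, q.2.2, rfl⟩ : H)) ?_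
  rintro ⟨_, t, ht, j, hj, rfl⟩
  exact ⟨(⟨t, ht⟩, ⟨j, hj⟩), rfl⟩

private theorem crd_prod {Q : Type*} [Group Q] [Finite Q] (N : Subgroup Q) (s : Finset (Subgroup Q))
    (h : ∀ T ∈ s, T ≤ N ∧ ∀ n ∈ N, ∀ t ∈ T, n * t * n⁻¹ ∈ T) :
    (⨆ T ∈ s, T) ≤ N ∧ Nat.card (⨆ T ∈ s, T : Subgroup Q) ≤ ∏ T ∈ s, Nat.card T := by
  classical
  induction s using Finset.induction_on with
  | empty =>
    simp
  | insert T s hT ih =>
    obtain ⟨h1, h2⟩ := ih fun U hU => h U (Finset.mem_insert_of_mem hU)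
    obtain ⟨h3, h4⟩ := h T (Finset.mem_insert_self T s)
    rw [Finset.iSup_insert, Finset.prod_insert hT]
    exact ⟨sup_le h3 h1, (crd_sup T _ fun j hj => h4 j (h1 hj)).trans (Nat.mul_le_mul_left _ h2)⟩

/-- PROOF. More generally `|⨆ T ∈ s, T| ≤ ∏ |T|` for a finite set `s` of pairwise commuting (or: `N`-invariant) subgroups `T`, by induction (`Subgroup.card_sup_le..` or: `S ⊔ T = S * T` as sets if `T` is normalized by `S`,
`Subgroup.mul_normal`, `Set.natCard_mul_le`). Here `N` is the join of the conjugates (`Fac.gen`), all of the same order. -/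
theorem Fac.card {Q : Type*} [Group Q] [Finite Q] {N S : Subgroup Q} (hN : MinN N) (hS : Fac N S) :
    Nat.card N ≤ Nat.card S ^ Nat.card {T : Subgroup Q // ∃ q, T = cj q S} := by
  classical
  have hfin : Finite {T : Subgroup Q // ∃ q, T = cj q S} := inferInstance
  have hF : Fintype {T : Subgroup Q // ∃ q, T = cj q S} := Fintype.ofFinite _
  let s : Finset (Subgroup Q) := Finset.univ.map
    (Function.Embedding.subtype fun T : Subgroup Q => ∃ q, T = cj q S)
  have hs : ∀ T, T ∈ s ↔ ∃ q, T = cj q S := by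
    intro T
    simp [s]
  have hcard : ∀ q, Nat.card (cj q S) = Nat.card S := by
    intro q
    exact (Nat.card_congr (S.equivMapOfInjective _ (MulAut.conj q).injective).toEquiv).symm
  obtain ⟨h1, h2⟩ := crd_prod N s fun T hT => by
    obtain ⟨q, rfl⟩ := (hs T).1 hT
    exact ⟨(hS.conj hN.nor q).le, (hS.conj hN.nor q).nor⟩
  have h3 : N ≤ ⨆ T ∈ s, T := by
    conv_lhs => rw [Fac.gen hN hS]
    exact iSup_le fun q => le_iSup₂_of_le (cj q S) ((hs _).2 ⟨q, rfl⟩) le_rfl
  have h4 : ∏ T ∈ s, Nat.card T = Nat.card S ^ Nat.card {T : Subgroup Q // ∃ q, T = cj q S} := by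
    rw [Nat.card_eq_fintype_card (α := {T : Subgroup Q // ∃ q, T = cj q S}),
      Finset.prod_congr rfl (g := fun _ => Nat.card S), Finset.prod_const, Finset.card_map,
      Finset.card_univ]
    intro T hT
    obtain ⟨q, rfl⟩ := (hs T).1 hT
    exact hcard q
  rw [← h4]
  exact (Subgroup.card_le_of_le h3).trans h2
-- END crd

-- BEGIN sec
/-- PROOF. The map `S.comap mk → S` induced by `mk` is surjective with the kernel `R.subgroupOf _` (`QuotientGroup.quotientKerEquivOfSurjective`, `QuotientGroup.quotientMulEquivOfEq`). -/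
theorem sec_equiv {G : Type*} [Group G] (R : Subgroup G) [R.Normal] (S : Subgroup (G ⧸ R)) :
    Nonempty ((S.comap (QuotientGroup.mk' R)) ⧸ R.subgroupOf (S.comap (QuotientGroup.mk' R)) ≃* S) := by
  have hf : Function.Surjective ((QuotientGroup.mk' R).subgroupComap S) := by
    rintro ⟨s, hs⟩
    obtain ⟨g, rfl⟩ := QuotientGroup.mk'_surjective R s
    exact ⟨⟨g, hs⟩, rfl⟩
  have hk : R.subgroupOf (S.comap (QuotientGroup.mk' R)) = ((QuotientGroup.mk' R).subgroupComap S).ker := by
    ext x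
    rw [MonoidHom.mem_ker, Subgroup.mem_subgroupOf, Subtype.ext_iff]
    show (x : G) ∈ R ↔ (QuotientGroup.mk' R) (x : G) = 1
    rw [QuotientGroup.mk'_apply, QuotientGroup.eq_one_iff]
  exact ⟨(QuotientGroup.quotientMulEquivOfEq hk).trans (QuotientGroup.quotientKerEquivOfSurjective _ hf)⟩
-- END sec

end Pool.Agent.Bdt
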