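import Pool.Agent.Bdt.Grp

/-!
# Counting fixed points on an abelian section
-/

set_option autoImplicit false

namespace Pool.Agent.Bdt

-- BEGIN orb
/-- PROOF. `D = ⁅A, A⁆`, `W = A / D` (as a subgroup of `G / D`: the image of `A`, of order `w`). Count the pairs `(g, v)`, `g ∈ G`, `v ∈ W`, `v` commutes with the image of `g` in `G / D`. For fixed `v` all `g ∈ A` are counted (`W` is
abelian), so there are at least `|A| * w` pairs. For fixed `g` the number of the `v` is at most `w` and at most `|C_(G/D)(g D)| ≤ |C_G(g)|` (`cent_quot`). (`D` is normal in `G`: `Subgroup.commutator_normal`.) -/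
theorem orb {G : Type*} [Group G] [Fintype G] (A : Subgroup G) [A.Normal] :
    Nat.card A * (⁅A, A⁆ : Subgroup G).relIndex A ≤
      ∑ g : G, min ((⁅A, A⁆ : Subgroup G).relIndex A) (Nat.card (Subgroup.centralizer {g})) := by
  classical
  have hDn : (⁅A, A⁆ : Subgroup G).Normal := Subgroup.commutator_normal A A
  set D : Subgroup G := ⁅A, A⁆ with hD
  set f : G →* G ⧸ D := QuotientGroup.mk' D with hf
  set W : Subgroup (G ⧸ D) := A.map f with hW
  have hcard : Nat.card W = D.relIndex A := by
    have h1 := Subgroup.relIndex_ker A f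
    rw [hf, QuotientGroup.ker_mk'] at h1
    exact h1.symm
  haveI : Fintype W := Fintype.ofFinite W
  have hcW : Fintype.card W = D.relIndex A := by rw [← hcard, Nat.card_eq_fintype_card]
  have hswap := Finset.sum_card_bipartiteAbove_eq_sum_card_bipartiteBelow (s := (Finset.univ : Finset G))
    (t := (Finset.univ : Finset W)) (fun (g : G) (v : W) => f g * (v : G ⧸ D) = (v : G ⧸ D) * f g)
  have hlow : Nat.card A * D.relIndex A ≤ ∑ v : W, (Finset.bipartiteBelow
      (fun (g : G) (v : W) => f g * (v : G ⧸ D) = (v : G ⧸ D) * f g) (Finset.univ : Finset G) v).card := by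
    have h1 : ∀ v ∈ (Finset.univ : Finset W), Nat.card A ≤ (Finset.bipartiteBelow
        (fun (g : G) (v : W) => f g * (v : G ⧸ D) = (v : G ⧸ D) * f g) (Finset.univ : Finset G) v).card := by
      intro v _
      obtain ⟨a, ha, hav⟩ := Subgroup.mem_map.1 v.2
      have h2 : Nat.card A = ((Finset.univ : Finset G).filter (fun g => g ∈ A)).card := by
        rw [Nat.card_eq_fintype_card, Fintype.card_subtype]
      rw [h2]
      apply Finset.card_le_card
      intro g hg
      rw [Finset.mem_filter] at hg
      rw [Finset.mem_bipartiteBelow]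
      refine ⟨Finset.mem_univ _, ?_⟩
      rw [← hav, ← map_mul, ← map_mul]
      change (QuotientGroup.mk' D) (g * a) = (QuotientGroup.mk' D) (a * g)
      rw [QuotientGroup.mk'_eq_mk']
      refine ⟨(g * a)⁻¹ * (a * g), ?_, by group⟩
      have h3 := Subgroup.commutator_mem_commutator (A.inv_mem ha) (A.inv_mem hg.2)
      rw [commutatorElement_def, inv_inv, inv_inv] at h3
      have h6 : (g * a)⁻¹ * (a * g) = a⁻¹ * g⁻¹ * a * g := by group
      rw [h6]
      exact h3
    have h4 := Finset.card_nsmul_le_sum _ _ _ h1
    rw [Finset.card_univ, hcW, smul_eq_mul] at h4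
    rw [mul_comm]
    exact h4
  have hup : ∑ g : G, (Finset.bipartiteAbove
      (fun (g : G) (v : W) => f g * (v : G ⧸ D) = (v : G ⧸ D) * f g) (Finset.univ : Finset W) g).card ≤
      ∑ g : G, min (D.relIndex A) (Nat.card (Subgroup.centralizer {g})) := by
    refine Finset.sum_le_sum fun g _ => le_min ?_ ?_
    · rw [← hcW, ← Finset.card_univ]
      exact Finset.card_filter_le _ _
    · refine le_trans ?_ (cent_quot D g)
      have h5 : (Finset.bipartiteAbove
          (fun (g : G) (v : W) => f g * (v : G ⧸ D) = (v : G ⧸ D) * f g) (Finset.univ : Finset W) g).card =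
          Nat.card {v : W // f g * (v : G ⧸ D) = (v : G ⧸ D) * f g} := by
        rw [Nat.card_eq_fintype_card, Fintype.card_subtype]
        rfl
      rw [h5]
      refine Nat.card_le_card_of_injective (fun v => (⟨((v : W) : G ⧸ D), ?_⟩ :
        Subgroup.centralizer {(g : G ⧸ D)})) ?_
      · rw [Subgroup.mem_centralizer_iff]
        intro h hh
        rw [Set.mem_singleton_iff] at hh
        rw [hh]
        exact v.2
      · intro v v' h
        apply Subtype.ext
        apply Subtype.ext
        exact congrArg (fun x : Subgroup.centralizer {(g : G ⧸ D)} => (x : G ⧸ D)) h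
  exact hlow.trans (hswap ▸ hup)
-- END orb

end Pool.Agent.Bdt
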