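import Pool.Agent.Bdt.Defs

/-!
# The sum of the reciprocals of the smooth numbers
-/

set_option autoImplicit false

namespace Pool.Agent.Bdt

-- BEGIN tle
/-- The sum of `1 / c` over the `c` all of whose prime divisors are `≤ B` converges, so its tails are small. -/
theorem tail_eps (B : ℕ) {ε : ℚ} (hε : 0 < ε) : ∃ X : ℕ, ∀ s : Finset ℕ,
    (∀ c ∈ s, X < c ∧ ∀ p : ℕ, p.Prime → p ∣ c → p ≤ B) → ∑ c ∈ s, (1 : ℚ) / c < ε := by
  classical
  have h := (EulerProduct.summable_and_hasSum_smoothNumbers_prod_primesBelow_tsum (R := ℝ) (f := fun n : ℕ => (1 : ℝ) / n)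
    (by simp) (by intro m n _; simp [mul_comm]) (by
      intro p hp
      have h1 : (fun n : ℕ => ‖(1 : ℝ) / ((p ^ n : ℕ) : ℝ)‖) = fun n : ℕ => (1 / (p : ℝ)) ^ n := by
        funext n
        rw [Real.norm_of_nonneg (by positivity)]
        push_cast
        rw [div_pow, one_pow]
      rw [h1]
      apply summable_geometric_of_lt_one (by positivity)
      rw [div_lt_one (by exact_mod_cast hp.pos)]
      exact_mod_cast hp.one_lt) (B + 1)).1
  have hε' : (0 : ℝ) < (ε : ℝ) := by exact_mod_cast hε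
  obtain ⟨F, hF⟩ := summable_iff_vanishing_norm.1 h (ε : ℝ) hε'
  refine ⟨F.sup (fun m => (m : ℕ)), fun s hs => ?_⟩
  have hmem : ∀ c ∈ s, c ∈ (B + 1).smoothNumbers := by
    intro c hc
    rw [Nat.mem_smoothNumbers]
    have hc0 : c ≠ 0 := by have := (hs c hc).1; omega
    refine ⟨hc0, fun p hp => ?_⟩
    have := (hs c hc).2 p (Nat.prime_of_mem_primeFactorsList hp) (Nat.dvd_of_mem_primeFactorsList hp)
    omega
  have h2 := hF (s.subtype (· ∈ (B + 1).smoothNumbers)) (by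
    rw [Finset.disjoint_left]
    intro c hc hcF
    rw [Finset.mem_subtype] at hc
    have h3 := (hs _ hc).1
    have h4 : (c : ℕ) ≤ F.sup (fun m => (m : ℕ)) := Finset.le_sup (f := fun m : (B + 1).smoothNumbers => (m : ℕ)) hcF
    omega)
  have h5 : ∑ b ∈ s.subtype (· ∈ (B + 1).smoothNumbers), ‖(1 : ℝ) / ((b : ℕ) : ℝ)‖ = ∑ c ∈ s, (1 : ℝ) / c := by
    rw [Finset.sum_subtype_of_mem (f := fun c : ℕ => ‖(1 : ℝ) / (c : ℝ)‖) hmem]
    apply Finset.sum_congr rfl
    intro c _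
    rw [Real.norm_of_nonneg (by positivity)]
  rw [h5] at h2
  have h6 := lt_of_le_of_lt (le_abs_self _) h2
  have h7 : ((∑ c ∈ s, (1 : ℚ) / c : ℚ) : ℝ) = ∑ c ∈ s, (1 : ℝ) / c := by push_cast; rfl
  rw [← h7] at h6
  exact_mod_cast h6
-- END tle

end Pool.Agent.Bdt
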